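import Pool.Agent.Q328.EB.Disj

/-!
# The outcome of Edge Blocking is EXPTIME-complete

For each of the three outcomes, for all positions, and also for the positions in which no edge can
be used by both players.

Lower bound: alternating register machines.  The registers are single tokens in regions of four
vertices, a control token runs through the program.  All tokens are alike; a control token which
enters a region turns into a register token.  When the control token is out of play the outcome is
decided by a potential which every move of Right raises by exactly one and every move of Left lowers
by at least one (`Pool.Agent.Q328.EB.Pure`).  Upper bound: backward induction.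
-/

set_option autoImplicit false

namespace Pool.Agent.Results.MP_817c3f_lc.EdgeBlockingExptimeComplete

open Pool.Agent.NPC Pool.Agent.NPC.Q328.EB Pool.Agent.H820R2.SS

/-- Completeness for `EXPTIME` under polynomial-time many-one reductions. -/
def Complete (L : Set (List Bool)) : Prop :=
  InEXPTIME L ∧ ∀ L' : Set (List Bool), InEXPTIME L' → Reduces L' L

/-- The outcome problem: the positions with property `T` that have the outcome `W`. -/
def Outcome (W : EBl → Prop) (T : EBl → Prop) : Set (List Bool) :=
  lang (fun A : EBl => IsPosition A ∧ T A ∧ W A)

theorem not_inP {L : Set (List Bool)} (h : Complete L) : ¬ InP L := by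
  intro hP
  obtain ⟨L', h1, h2⟩ := exists_exptime_not_p
  exact h2 (InP.of_reduces (h.2 L' h1) hP)

/-- **Deciding the outcome of an Edge Blocking position is `EXPTIME`-complete**: for each of the
three outcomes (the player to move can force a win, the other player can, neither can), for all
positions and for the positions in which no edge belongs to both `E_L` and `E_R`. Hence none of
these problems is in `P`. -/
theorem result (W : EBl → Prop) (hW : W = MoverWins ∨ W = OtherWins ∨ W = Drawn) :
    (Complete (Outcome W (fun _ => True)) ∧ ¬ InP (Outcome W (fun _ => True))) ∧
    Complete (Outcome W Disj) ∧ ¬ InP (Outcome W Disj) := by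
  have key : ∀ (T : EBl → Prop) (q : EBl → Bool), NPC.Poly q → (∀ A, q A = true ↔ T A) →
      (∀ c t M, T (inst c t M)) → Complete (Outcome W T) := by
    intro T q hq hT hi
    have e : Outcome W T = lang (fun A : EBl => IsPosition A ∧ q A = true ∧ W A) :=
      lang_congr fun A => by rw [hT A]
    rw [e]
    exact ⟨(exp_of hW hq).inEXPTIME, fun L' hL' =>
      hard_of hW (fun c t M => (hT _).2 (hi c t M)) hL'⟩
  have h0 : Complete (Outcome W (fun _ => True)) :=
    key _ (fun _ => true) (NPC.Poly.const _) (fun _ => by simp) (fun _ _ _ => trivial)
  have h1 : Complete (Outcome W Disj) := key _ disjB poly_disjB disjB_iff inst_disj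
  exact ⟨⟨h0, not_inP h0⟩, h1, not_inP h1⟩

end Pool.Agent.Results.MP_817c3f_lc.EdgeBlockingExptimeComplete
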